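import Mathlib
import Pool.Graph.R_seed8.Y826.Z.Defs5
import Pool.Graph.R_seed8.Y823.Z.Comb

/-!
# The grouping lemma with parameters (helper529)

The library proves the grouping lemma for the total radius `2.04` (`Y823/Z/CombA, CombB, Comb`) and
`2.0425` (`Y333/Z/Comb2A, Comb2B, Comb2`). Here it is stated with parameters: total radius `2 + τ`, granularity `s`
of the set `R`, window `w` of the set `A`, granularity `x 0` of the set `V`, thresholds `x j`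
(`j ≤ m`) with lower bounds `G j` for the total size of the items of size at most `x j`.
-/

set_option autoImplicit false

namespace Pool.Agent.H529.C

open Finset Pool.Agent.Y826.Z Pool.Agent.Y823.Z Pool.Agent.H95R2.BG

/-- conditions on the parameters; `l j` = guaranteed total (plus `e`) of the items of size at most `x j` which are
not in `V`, where `e = 2 + τ - ∑ X` -/
structure ParG (τ s w V0 Bp : ℝ) (x G l : ℕ → ℝ) (k a m : ℕ) : Prop where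
  t0 : 0 ≤ τ
  t1 : τ ≤ 0.05
  s0 : 0 < s
  s1 : s ≤ 0.08
  x0 : 0 < x 0
  x0s : x 0 ≤ s
  x01 : x 0 ≤ 0.02
  x0w : 2 * x 0 ≤ w
  xk : k = 0 ∨ s ≤ 2 * x 0
  mono : ∀ j, j < m → x j < x (j + 1)
  km : k ≤ m
  am : a ≤ m
  hV0 : V0 = τ + s / 2 + x 0 + 0.00002
  hw : w + 28 * τ + 14 * s + 2 * x 0 + 0.0005 ≤ 4 / 3
  l1 : ∀ j, j < k → l j + x (j + 1) ≤ G j
  l2 : ∀ j, j < k → l j ≤ l (j + 1)
  l3 : ∀ j, k ≤ j → j ≤ m → l j + V0 ≤ G j
  Gk : 1.5 * τ + s / 2 + 0.0001 ≤ G k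
  R : ∀ j, j < m → x (j + 1) ≤ l j + s
  Rm : 2 + τ + 0.0001 ≤ 4 * (l m + s) + G m
  B : 1.5 * Bp + 0.665 + x 0 + 0.0001 ≤ 2 + s / 2
  A : ∀ j, j < a → 2 * x (j + 1) ≤ l j + w
  Aa : 16 * τ + 8 * s + 0.0003 ≤ 2 * l a + w
  H1 : 12 * τ + 6 * s + 4 * x 0 + 0.001 ≤ 0.668
  H2 : 16 * τ + 8 * s + 0.001 ≤ 0.8

/-- the data of the grouping lemma; compare `Pool.Agent.Y826.Z.Dat2` -/
structure DatG {ι : Type} [Fintype ι] [DecidableEq ι] (τ Bp : ℝ) (x G : ℕ → ℝ) (m : ℕ)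
    (t X : ι → ℝ) (cl : ι → Bool) (n : ℝ) : Prop where
  h0 : ∀ z, 0 ≤ X z
  h1 : ∀ z, X z ≤ t z
  h2 : ∀ z, t z ≤ 0.665
  hT : ∑ z, t z ≤ 2 + τ
  hX : 2 - 0.000001 ≤ ∑ z, X z
  hn1 : 4 / 3 - 0.000001 ≤ n
  hn2 : n ≤ 2 + 0.000001
  sm : ∀ j, j ≤ m → G j ≤ ∑ z ∈ univ.filter (fun z => t z ≤ x j), t z
  hc : ∀ b, ∑ z ∈ univ.filter (fun z => cl z = b ∧ x m < t z), t z ≤ Bp

/-- Task CV: the set `V`. Proof: `A j := ∑ of X over t ≤ x j`, `e := 2 + τ - ∑ X ≥ 0`, `A j ≥ G j - e` (see `Dat2.small`).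
Greedy (`Pool.Agent.Y823.Z.greedy`) with the total cap `V0`, in stages: first from the items with `x (k-1) < t ≤ x k`, then
from those with `x (k-2) < t ≤ x (k-1)`, ..., at last from those with `t ≤ x 0`, each time with the cap
`V0 - (sum of what has been taken)`. Let `r j` be the remaining capacity before the stage `j` (`r k = V0`). In
the stage `j` either all the items of the stage are taken, or some item `z` with `X z ≤ x j` does not fit,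
and then `r (j-1) < x j`. Induction: what remains of `t ≤ x j` before the stage `j` is `A j`, and
`A j - r j ≥ l j - e` (start: `A k - V0 ≥ G k - e - V0 ≥ l k - e`; step: if all the stage was taken then
`A (j-1) - r (j-1) = A j - r j ≥ l j - e ≥ l (j-1) - e`; otherwise `A (j-1) - r (j-1) ≥ G (j-1) - e - x j ≥ l (j-1) - e`).
As at most `r j` is taken from `t ≤ x j` afterwards, the last claim holds for `j ≤ k`; for `j ≥ k` it holds since at most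
`V0` is taken at all. Lower bound of `∑ V`: if no item was ever refused then `V` is all of `t ≤ x k` and
`∑ V = A k ≥ G k - e`, use `Gk` (and `e ≤ τ + 0.000001`). Otherwise let `i` be the last (smallest) stage with a refusal:
if `i = 0`, the final gap is `< x 0`; if `i ≥ 1`, the final gap `g` is `< x i` and also
`g ≤ x i - A (i-1) ≤ x i - G (i-1) + e ≤ e - l (i-1)`, and `x i ≤ l (i-1) + s` gives `2 g ≤ e + s`; then `k ≠ 0`,
so `s ≤ 2 * x 0`. In all cases `V0 - g ≥` the claimed lower bound. (Alternatively by induction on `k`.) -/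
def S_CV : Prop := ∀ {ι : Type} [Fintype ι] [DecidableEq ι] {τ s w V0 Bp : ℝ} {x G l : ℕ → ℝ} {k a m : ℕ}
    {t X : ι → ℝ} {cl : ι → Bool} {n : ℝ}, ParG τ s w V0 Bp x G l k a m → DatG τ Bp x G m t X cl n →
  ∃ V : Finset ι, τ + s / 2 - (2 + τ - ∑ z, X z) / 2 + 0.000011 ≤ ∑ z ∈ V, X z ∧ ∑ z ∈ V, X z ≤ V0 ∧
    ∀ j, j ≤ m → l j - (2 + τ - ∑ z, X z) ≤ ∑ z ∈ (univ \ V).filter (fun z => t z ≤ x j), X z

/-- Task CR: the set `R` (compare `Dat2.card_large`, `Dat2.pair`, `Dat2.triple`, `Dat2.step2` in `Y333/Z/Comb2A`).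
With `e := 2 + τ - ∑ X`: greedy with the cap `n - 0.00001`; if an item `r` is refused and the sum is less than
`n - (s + e) - 0.00001` then `X r > s + e ≥ x 0`, and the accepted items smaller than `X r` have the sum
`< X r - (s + e)`; all the items outside of `V` with `t z < X r` are accepted. Induction: `x j < X r` for all `j ≤ m`
(from `l j - e ≤ ... < X r - (s + e)` and `R`), and `X r > l m + s`. Call an item large if `X z ≥ X r`: at most three large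
items (`Rm`, `sm m`; note `t z ≥ X z > x m`), two large items in the same cell have `X a + X b ≤ Bp` (`hc`),
three large items have `X a + X b + 2 X r ≤ 1.5 Bp + 0.665`, and the end is as in the library, with `B` and `∑ V ≤ V0`. -/
def S_CR : Prop := ∀ {ι : Type} [Fintype ι] [DecidableEq ι] {τ s w V0 Bp : ℝ} {x G l : ℕ → ℝ} {k a m : ℕ}
    {t X : ι → ℝ} {cl : ι → Bool} {n : ℝ}, ParG τ s w V0 Bp x G l k a m → DatG τ Bp x G m t X cl n →
  ∀ V : Finset ι, ∑ z ∈ V, X z ≤ V0 →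
    (∀ j, j ≤ m → l j - (2 + τ - ∑ z, X z) ≤ ∑ z ∈ (univ \ V).filter (fun z => t z ≤ x j), X z) →
    ∃ R ⊆ univ \ V, ∑ z ∈ R, X z ≤ n - 0.00001 ∧
      (R = univ \ V ∨ n - (s + (2 + τ - ∑ z, X z)) - 0.00001 ≤ ∑ z ∈ R, X z)

/-- Task CA: the set `A` (compare `Dat2.step4` in `Y333/Z/Comb2B`). With `e := 2 + τ - ∑ X`, `hi`, `lo` the two bounds:
`hi ≥ 0.665` by `H1`, `hi - lo ≥ w + 13 e` by `hw`, `lo ≤ 16 τ + 8 s - 8 e + 0.0001`. Greedy for the weights `ω`; if `r` is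
refused and the sum is `< lo` then, with `y = ω r / 2`: `2 y > w + 13 e` (so `y > x 0` by `x0w`), and the accepted
items with `ω z < ω r` have the sum `< 2 y - (w + 13 e)`. Induction: `x j < y` for `j ≤ a` (`l j - e < 2 y - w - 13 e`, `A`);
then `2 y > l a + w + 12 e` and `lo > ω r + l a - e`, which contradicts `Aa`. -/
def S_CA : Prop := ∀ {ι : Type} [Fintype ι] [DecidableEq ι] {τ s w V0 Bp : ℝ} {x G l : ℕ → ℝ} {k a m : ℕ}
    {t X : ι → ℝ} {cl : ι → Bool} {n : ℝ}, ParG τ s w V0 Bp x G l k a m → DatG τ Bp x G m t X cl n →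
  n < 1.6 → ∀ V R : Finset ι, τ + s / 2 - (2 + τ - ∑ z, X z) / 2 + 0.000011 ≤ ∑ z ∈ V, X z → ∑ z ∈ V, X z ≤ V0 →
    (∀ j, j ≤ m → l j - (2 + τ - ∑ z, X z) ≤ ∑ z ∈ (univ \ V).filter (fun z => t z ≤ x j), X z) →
    R ⊆ univ \ V → ∑ z ∈ R, X z ≤ n → n - (s + (2 + τ - ∑ z, X z)) - 0.00001 ≤ ∑ z ∈ R, X z →
    ∃ A ⊆ univ \ V,
    4 - 3 * n + 18 * (∑ z, X z - 2) + 9 * (n - ∑ z ∈ R, X z) - 2 * ∑ z ∈ V, X z + 0.000002 ≤
      ∑ z ∈ A, (if z ∈ R then X z else 2 * X z) ∧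
    ∑ z ∈ A, (if z ∈ R then X z else 2 * X z) ≤
      n - 4 * ∑ z ∈ V, X z - 8 * (∑ z, X z - 2) - 4 * (n - ∑ z ∈ R, X z) - 0.000002

/-- Task CM: the five groups from the three sets (compare `Dat2.main` in `Y333/Z/Comb2B`) -/
def S_CM : Prop := S_CV → S_CR → S_CA → ∀ {ι : Type} [Fintype ι] [DecidableEq ι] {τ s w V0 Bp : ℝ} {x G l : ℕ → ℝ}
    {k a m : ℕ} {t X : ι → ℝ} {cl : ι → Bool} {n : ℝ},
    ParG τ s w V0 Bp x G l k a m → DatG τ Bp x G m t X cl n →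
  ∃ g : ι → Fin 5, ∀ Y : Fin 5 → ℝ,
    (∀ i, Y i = ∑ z ∈ univ.filter (fun z => g z = i), X z) →
    Y 0 + Y 1 + Y 2 + Y 3 + Y 4 = ∑ z, X z ∧ ∃ H : ℝ, 0 ≤ H ∧
      H = 2 * (∑ z, X z - 2) + (n - (Y 0 + Y 1)) ∧
      Y 0 + Y 1 + 0.000001 ≤ n ∧ Y 0 + Y 1 + 2 * Y 2 + 2 * Y 3 + 0.000001 ≤ 4 - n ∧
      Y 0 + 2 * Y 2 + 4 * Y 4 + 4 * H + 0.000001 ≤ n ∧
      Y 1 + 2 * Y 3 + 8 * H + 0.000001 ≤ 2 * n ∧
      8 * H + 0.000001 ≤ Y 1 + 2 * Y 3

/-- good cells for the parameters -/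
structure GdG (Bp : ℝ) (x G : ℕ → ℝ) (m : ℕ) {K0 : ℕ} (N1 : ℕ) (c : Fin K0 → ℕ) : Prop where
  cap : ∀ j, ((c j : ℝ) + 1) / N1 ≤ 0.665
  rd : (rad c : ℝ) / N1 ≤ Bp + G m / 2
  sm : ∀ j, j ≤ m → G j / 2 ≤ Sm N1 (x j) c

/-- Task CC: two good cells can be evaluated up to the total radius `2 + τ` (compare `comb2` in `Y333/Z/Comb2`);
`hmain` is the conclusion of `S_CM` -/
def S_CC : Prop := S_CV → S_CR → S_CA → S_CM → ∀ {τ s w V0 Bp : ℝ} {x G l : ℕ → ℝ} {k a m : ℕ},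
    ParG τ s w V0 Bp x G l k a m → ∀ (K0 N1 : ℕ), 0 < N1 → ∀ c c' : Fin K0 → ℕ, GdG Bp x G m N1 c → GdG Bp x G m N1 c' →
    ((rad c + rad c' : ℕ) : ℝ) / N1 ≤ 2 + τ → Ev N1 c c'

end Pool.Agent.H529.C
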