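import Pool.Agent.H529.C.Defs

/-!
# The grouping lemma with parameters (helper529), task CA: the set `A`

Adapted from `Pool.Agent.Y826.Z.Dat2.step4` (library module `Pool.Graph.R_seed8.Y333.Z.Comb2B`).
-/

set_option autoImplicit false

namespace Pool.Agent.H529.C.A

open Finset Pool.Agent.Y826.Z Pool.Agent.Y823.Z Pool.Agent.H95R2.BG
open Pool.Agent.H529.C

theorem ca : Pool.Agent.H529.C.S_CA := by
  intro ι _ _ τ s w V0 Bp x G l k a m t X cl n P D hn V R hV1 hV2 hV3 hR hρ1 hρ
  have hn1 := D.hn1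
  have hX := D.hX
  have hle : ∑ z, X z ≤ 2 + τ := (sum_le_sum fun z _ => D.h1 z).trans D.hT
  obtain ⟨e, he⟩ : ∃ e : ℝ, e = 2 + τ - ∑ z, X z := ⟨_, rfl⟩
  rw [← he] at hV1 hρ hV3
  have he0 : 0 ≤ e := by linarith
  have hSX : ∑ z, X z = 2 + τ - e := by linarith
  have hP1 := P.s1
  have hP2 := P.x0w
  have hP3 := P.hV0
  have hP4 := P.hw
  have hP5 := P.H1
  have hP6 := P.H2
  have hP7 := P.Aa
  have hP8 := P.x0
  have hP9 := P.t0
  have hP10 := P.s0
  set ω : ι → ℝ := fun z => if z ∈ R then X z else 2 * X z with hω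
  have hω1 : ∀ z, X z ≤ ω z := by
    intro z
    have := D.h0 z
    simp only [hω]
    split_ifs <;> linarith
  have hω2 : ∀ z, ω z ≤ 2 * X z := by
    intro z
    have := D.h0 z
    simp only [hω]
    split_ifs <;> linarith
  have hω0 : ∀ z, 0 ≤ ω z := fun z => (D.h0 z).trans (hω1 z)
  set hi : ℝ := n - 4 * ∑ z ∈ V, X z - 8 * (∑ z, X z - 2) - 4 * (n - ∑ z ∈ R, X z) - 0.000002
    with hhi
  set lo : ℝ := 4 - 3 * n + 18 * (∑ z, X z - 2) + 9 * (n - ∑ z ∈ R, X z) - 2 * ∑ z ∈ V, X z +
    0.000002 with hlo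
  have b1 : 0.665 ≤ hi := by
    rw [hhi, hSX]
    linarith
  have b2 : w + 13 * e ≤ hi - lo := by
    rw [hhi, hlo, hSX]
    linarith
  have b3 : lo ≤ 16 * τ + 8 * s - 8 * e + 0.0001 := by
    rw [hlo, hSX]
    linarith
  obtain ⟨A, hAS, hAc, hA⟩ := greedy ω hi (by linarith)
    ((univ \ V).filter (fun z => ω z ≤ hi)) (fun z _ => hω0 z)
  refine ⟨A, hAS.trans (filter_subset _ _), ?_, hAc⟩
  by_contra hlt
  push Not at hlt
  rcases hA with hA | ⟨r, hrS, hrA, hr1, hr2⟩
  · have h1 : ∑ z ∈ R, X z ≤ ∑ z ∈ A, ω z := by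
      calc ∑ z ∈ R, X z ≤ ∑ z ∈ R, ω z := sum_le_sum fun z _ => hω1 z
        _ ≤ ∑ z ∈ A, ω z := by
            refine sum_le_sum_of_subset_of_nonneg ?_ fun z _ _ => hω0 z
            intro z hz
            rw [hA, mem_filter]
            refine ⟨hR hz, ?_⟩
            have h2 : ω z = X z := by simp only [hω, if_pos hz]
            have := D.h1 z
            have := D.h2 z
            linarith
    have h3 : ∑ z ∈ A, ω z < lo := hlt
    linarith
  · have hrc : ω r ≤ hi := (mem_filter.1 hrS).2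
    have h1 : ∑ z ∈ A, ω z = ∑ z ∈ A.filter (fun z => ω r ≤ ω z), ω z +
        ∑ z ∈ A.filter (fun z => ¬ ω r ≤ ω z), ω z := (sum_filter_add_sum_filter_not _ _ _).symm
    have h2 : ω r ≤ ∑ z ∈ A.filter (fun z => ω r ≤ ω z), ω z := by
      have hne : (A.filter (fun z => ω r ≤ ω z)).Nonempty := by
        rw [nonempty_iff_ne_empty]
        intro he
        rw [he, sum_empty] at hr1
        linarith
      obtain ⟨w, hw⟩ := hne
      exact (mem_filter.1 hw).2.trans (single_le_sum (f := ω) (fun z _ => hω0 z) hw)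
    have hlt' : ∑ z ∈ A, ω z < lo := hlt
    have h3 : ∀ y : ℝ, y < ω r / 2 → ∑ z ∈ (univ \ V).filter (fun z => t z ≤ y), X z ≤
        ∑ z ∈ A.filter (fun z => ¬ ω r ≤ ω z), ω z := by
      intro y hy
      calc ∑ z ∈ (univ \ V).filter (fun z => t z ≤ y), X z ≤
          ∑ z ∈ (univ \ V).filter (fun z => t z ≤ y), ω z := sum_le_sum fun z _ => hω1 z
        _ ≤ ∑ z ∈ A.filter (fun z => ¬ ω r ≤ ω z), ω z := by
            refine sum_le_sum_of_subset_of_nonneg ?_ fun z _ _ => hω0 z
            intro z hz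
            rw [mem_filter] at hz
            have h4 : ω z < ω r := by
              have := hω2 z
              have := D.h1 z
              have := hz.2
              linarith
            rw [mem_filter]
            refine ⟨hr2 z (mem_filter.2 ⟨hz.1, ?_⟩) h4, not_le.2 h4⟩
            linarith
    set Q : ℝ := ∑ z ∈ A.filter (fun z => ¬ ω r ≤ ω z), ω z with hQ
    have h5 : 0 ≤ Q := sum_nonneg fun z _ => hω0 z
    have h6 : w + 13 * e + Q < ω r := by linarith
    have key : ∀ j, j ≤ a → x j < ω r / 2 := by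
      intro j
      induction j with
      | zero => intro _; linarith
      | succ j ih =>
        intro hj
        have h7 := ih (by omega)
        have h8 := hV3 j ((by omega : j ≤ a).trans P.am)
        have h9 := h3 (x j) h7
        have h10 := P.A j (by omega)
        linarith
    have h7 := hV3 a P.am
    have h8 := h3 (x a) (key a le_rfl)
    linarith

end Pool.Agent.H529.C.A
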