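import Pool.Agent.H529.C.Defs
import Pool.Graph.R_seed8.Y826.Z.Defs5
import Pool.Graph.R_seed8.Y823.Z.Comb

/-!
# Task CC of the grouping lemma with parameters: two good cells can be evaluated
-/

set_option autoImplicit false

namespace Pool.Agent.H529.C

open Finset Pool.Agent.Y826.Z Pool.Agent.Y823.Z Pool.Agent.H95R2.BG

theorem large_oneG {Bp : ℝ} {x G : ℕ → ℝ} {m : ℕ} {K0 : ℕ} (N1 : ℕ) (c : Fin K0 → ℕ)
    (h : GdG Bp x G m N1 c) :
    ∑ j, (if x m < ((c j : ℝ) + 1) / N1 then ((c j : ℝ) + 1) / N1 else 0) ≤ Bp := by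
  have h1 : ∑ j, (if x m < ((c j : ℝ) + 1) / N1 then ((c j : ℝ) + 1) / N1 else 0) +
      Sm N1 (x m) c = (rad c : ℝ) / N1 := by
    unfold Sm rad
    push_cast
    rw [← sum_add_distrib, Finset.sum_div]
    refine sum_congr rfl fun j _ => ?_
    by_cases h2 : ((c j : ℝ) + 1) / N1 ≤ x m
    · rw [if_neg (not_lt.2 h2), if_pos h2, zero_add]
    · rw [if_pos (not_le.1 h2), if_neg h2, add_zero]
  have h3 := h.rd
  have h4 := h.sm m le_rfl
  linarith

theorem tt_largeG {Bp : ℝ} {x G : ℕ → ℝ} {m : ℕ} {K0 : ℕ} (N1 : ℕ) (c c' : Fin K0 → ℕ)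
    (h : GdG Bp x G m N1 c) (h' : GdG Bp x G m N1 c') (b : Bool) :
    ∑ z ∈ univ.filter (fun z => cc z = b ∧ x m < tt N1 c c' z), tt N1 c c' z ≤ Bp := by
  rw [sum_filter, Fin.sum_univ_add]
  simp only [tt, cc, Fin.append_left, Fin.append_right]
  cases b
  · simpa using large_oneG N1 c' h'
  · simpa using large_oneG N1 c h

theorem cc : S_CC := by
  intro hCV hCR hCA hCM τ s w V0 Bp xs G l k a m P K0 N1 hN1 c c' h h' hrad
  have hτ := P.t1
  have hN1' : (0 : ℝ) < N1 := by exact_mod_cast hN1
  right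
  refine ⟨?_, 0.00000001 / ((K0 : ℝ) + 1), by positivity, ?_⟩
  · rw [div_le_iff₀ hN1'] at hrad
    have h1 : (25 * (rad c + rad c') : ℝ) ≤ 54 * N1 := by
      push_cast at hrad
      nlinarith
    exact_mod_cast h1
  · set δ : ℝ := 0.00000001 / ((K0 : ℝ) + 1) with hδ
    have hK : (0 : ℝ) ≤ K0 := Nat.cast_nonneg _
    have hδ0 : 0 < δ := by positivity
    have hδK : δ * ((K0 : ℝ) + 1) = 0.00000001 := by
      rw [hδ]
      field_simp
    have hδ1 : δ ≤ 0.00000001 := by nlinarith
    intro x hx hsum ν hν1 hν2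
    have htp : ∀ z, 4 * tp (fun j => ((c j : ℝ) + 1) / N1) (fun j => ((c' j : ℝ) + 1) / N1) z =
        tt N1 c c' z := by
      intro z
      refine Fin.addCases (fun j => ?_) (fun j => ?_) z
      · simp only [tp, tt, Fin.append_left]
        ring
      · simp only [tp, tt, Fin.append_right]
        ring
    have htt0 : ∀ z, 0 ≤ tt N1 c c' z := by
      intro z
      refine Fin.addCases (fun j => ?_) (fun j => ?_) z
      · simp only [tt, Fin.append_left]
        positivity
      · simp only [tt, Fin.append_right]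
        positivity
    have htt2 : ∀ z, tt N1 c c' z ≤ 0.665 := by
      intro z
      refine Fin.addCases (fun j => ?_) (fun j => ?_) z
      · simp only [tt, Fin.append_left]
        exact h.cap j
      · simp only [tt, Fin.append_right]
        exact h'.cap j
    set X : Fin (K0 + K0) → ℝ := fun z => max (4 * x z) 0 with hXd
    have hX1 : ∀ z, 4 * x z ≤ X z := fun z => le_max_left _ _
    have hX2 : ∀ z, X z ≤ 4 * x z + 4 * δ := by
      intro z
      have := (hx z).1
      exact max_le (by linarith) (by linarith)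
    have D : DatG τ Bp xs G m (tt N1 c c') X Pool.Agent.Y823.Z.cc (4 * ν) := by
      refine ⟨fun z => le_max_right _ _, fun z => max_le ?_ (htt0 z), htt2, ?_, ?_, ?_, ?_, ?_,
        tt_largeG N1 c c' h h'⟩
      · rw [← htp z]
        have := (hx z).2
        linarith
      · rw [tt_sum]
        push_cast at hrad
        rw [add_div] at hrad
        exact hrad
      · have h1 : ∑ z, 4 * x z ≤ ∑ z, X z := sum_le_sum fun z _ => hX1 z
        rw [← mul_sum] at h1
        linarith
      · linarith
      · linarith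
      · intro j hj
        rw [tt_small]
        have h1 := h.sm j hj
        have h2 := h'.sm j hj
        linarith
    obtain ⟨g, hg⟩ := hCM hCV hCR hCA P D
    refine ⟨g, ?_⟩
    intro y hy η hη
    obtain ⟨hY, H, hH0, hH, c1, c2, c3, c4, c5⟩ :=
      hg (fun i => ∑ z ∈ univ.filter (fun z => g z = i), X z) (fun i => rfl)
    -- comparison of the sums
    have hle : ∀ i, 4 * y i ≤ ∑ z ∈ univ.filter (fun z => g z = i), X z := by
      intro i
      rw [hy i, mul_sum]
      exact sum_le_sum fun z _ => hX1 z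
    have hge : ∀ i, ∑ z ∈ univ.filter (fun z => g z = i), X z ≤ 4 * y i + 0.00000008 := by
      intro i
      have h1 : ∑ z ∈ univ.filter (fun z => g z = i), X z ≤
          ∑ z ∈ univ.filter (fun z => g z = i), (4 * x z + 4 * δ) := sum_le_sum fun z _ => hX2 z
      rw [sum_add_distrib, ← mul_sum, ← hy i, sum_const, nsmul_eq_mul] at h1
      have h2 : ((univ.filter (fun z => g z = i)).card : ℝ) ≤ K0 + K0 := by
        have h3 : (univ.filter (fun z => g z = i)).card ≤ K0 + K0 := by
          refine (card_filter_le _ _).trans ?_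
          simp
        exact_mod_cast h3
      have h4 : ((univ.filter (fun z => g z = i)).card : ℝ) * (4 * δ) ≤ 0.00000008 := by
        nlinarith
      linarith
    set Y : Fin 5 → ℝ := fun i => ∑ z ∈ univ.filter (fun z => g z = i), X z with hYd
    have l0 := hle 0
    have l1 := hle 1
    have l2 := hle 2
    have l3 := hle 3
    have l4 := hle 4
    have g0 := hge 0
    have g1 := hge 1
    have g2 := hge 2
    have g3 := hge 3
    have g4 := hge 4
    change 4 * y 0 ≤ Y 0 at l0
    change 4 * y 1 ≤ Y 1 at l1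
    change 4 * y 2 ≤ Y 2 at l2
    change 4 * y 3 ≤ Y 3 at l3
    change 4 * y 4 ≤ Y 4 at l4
    change Y 0 ≤ _ at g0
    change Y 1 ≤ _ at g1
    change Y 2 ≤ _ at g2
    change Y 3 ≤ _ at g3
    change Y 4 ≤ _ at g4
    change Y 0 + Y 1 + Y 2 + Y 3 + Y 4 = _ at hY
    have hη4 : 4 * η ≤ H := by
      rw [hη]
      rcases le_total 0 (y 0 + y 1 + 2 * y 2 + 2 * y 3 + 2 * y 4 - (1 - ν)) with h1 | h1
      · rw [max_eq_right h1]
        rw [hH]
        linarith
      · rw [max_eq_left h1]
        linarith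
    have hη0 : 0 ≤ η := by
      rw [hη]
      exact le_max_left _ _
    refine ⟨?_, ?_, ?_, ?_, ?_⟩
    · linarith
    · linarith
    · linarith
    · linarith
    · linarith

end Pool.Agent.H529.C
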