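import Pool.Agent.H529.C.Defs

/-!
# The grouping lemma with parameters: the set `R` (task CR)

The proof of `Dat2.step2` in `Pool/Graph/R_seed8/Y333/Z/Comb2A.lean` with parameters.
-/

set_option autoImplicit false
set_option linter.unusedSectionVars false

namespace Pool.Agent.H529.C.R

open Finset Pool.Agent.Y823.Z Pool.Agent.H529.C

section

variable {ι : Type} [Fintype ι] [DecidableEq ι] {τ Bp : ℝ} {x G : ℕ → ℝ} {m : ℕ}
  {t X : ι → ℝ} {cl : ι → Bool} {n : ℝ}

/-- at most three large items -/
theorem card_large (D : DatG τ Bp x G m t X cl n) (y c : ℝ) (hy0 : 0 ≤ y) (hxm : x m < y)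
    (hc : c ≤ y) (hR : 2 + τ + 0.0001 ≤ 4 * c + G m) (L : Finset ι) (hL : ∀ z ∈ L, y ≤ X z) :
    L.card ≤ 3 := by
  by_contra hcon
  push Not at hcon
  have h1 : (L.card : ℝ) * y ≤ ∑ z ∈ L, t z := by
    rw [← nsmul_eq_mul, ← sum_const]
    refine sum_le_sum fun z hz => ?_
    have := hL z hz
    have := D.h1 z
    linarith
  have h2 : ∑ z ∈ L, t z + ∑ z ∈ univ.filter (fun z => t z ≤ x m), t z ≤ ∑ z, t z := by
    rw [← sum_union]
    · refine sum_le_sum_of_subset_of_nonneg (subset_univ _) fun z _ _ => ?_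
      have := D.h0 z
      have := D.h1 z
      linarith
    · rw [disjoint_left]
      intro z hz hz2
      have := hL z hz
      have := D.h1 z
      have := (mem_filter.1 hz2).2
      linarith
  have h3 : (4 : ℝ) ≤ L.card := by exact_mod_cast hcon
  have h4 : 4 * y ≤ (L.card : ℝ) * y := mul_le_mul_of_nonneg_right h3 hy0
  have := D.sm m le_rfl
  have := D.hT
  linarith

/-- two large items in the same cell -/
theorem pair (D : DatG τ Bp x G m t X cl n) (a b : ι) (hab : a ≠ b) (ha : x m < X a)
    (hb : x m < X b) (hcl : cl a = cl b) : X a + X b ≤ Bp := by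
  have h1 : ∑ z ∈ ({a, b} : Finset ι), t z ≤
      ∑ z ∈ univ.filter (fun z => cl z = cl b ∧ x m < t z), t z := by
    refine sum_le_sum_of_subset_of_nonneg ?_ fun z _ _ => ?_
    · intro z hz
      rw [mem_filter]
      rw [mem_insert, mem_singleton] at hz
      rcases hz with h | h
      · rw [h]
        have := D.h1 a
        exact ⟨mem_univ _, hcl, by linarith⟩
      · rw [h]
        have := D.h1 b
        exact ⟨mem_univ _, rfl, by linarith⟩
    · have := D.h0 z
      have := D.h1 z
      linarith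
  rw [sum_pair hab] at h1
  have := D.hc (cl b)
  have := D.h1 a
  have := D.h1 b
  linarith

/-- three large items -/
theorem triple (D : DatG τ Bp x G m t X cl n) (r a b : ι) (hra : r ≠ a) (hrb : r ≠ b)
    (hab : a ≠ b) (hr : x m < X r) (ha : X r ≤ X a) (hb : X r ≤ X b) :
    X a + X b + 2 * X r ≤ 1.5 * Bp + 0.665 := by
  have h1 := D.h1 a
  have h2 := D.h1 b
  have h3 := D.h2 a
  have h4 := D.h2 b
  have h3' := D.h1 r
  have h4' := D.h2 r
  have ha' : x m < X a := hr.trans_le ha
  have hb' : x m < X b := hr.trans_le hb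
  by_cases h5 : cl r = cl a
  · have := pair D r a hra hr ha' h5
    linarith
  · by_cases h6 : cl r = cl b
    · have := pair D r b hrb hr hb' h6
      linarith
    · have h7 : cl a = cl b := by
        revert h5 h6
        cases cl r <;> cases cl a <;> cases cl b <;> simp
      have := pair D a b hab ha' hb' h7
      linarith

end

/-- the set `R` -/
theorem cr : S_CR := by
  intro ι _ _ τ s w V0 Bp x G l k a' m t X cl n P D V hV hl
  obtain ⟨e, he⟩ : ∃ e, e = 2 + τ - ∑ z, X z := ⟨_, rfl⟩
  rw [← he] at hl ⊢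
  have hn1 := D.hn1
  have hle : ∑ z, X z ≤ 2 + τ := (sum_le_sum fun z _ => D.h1 z).trans D.hT
  have he0 : 0 ≤ e := by rw [he]; linarith
  obtain ⟨R, hRS, hRc, hR⟩ := greedy X (n - 0.00001) (by linarith) (univ \ V) (fun z _ => D.h0 z)
  refine ⟨R, hRS, hRc, ?_⟩
  rcases hR with hR | ⟨r, hrS, hrR, hr1, hr2⟩
  · exact Or.inl hR
  right
  by_contra hcon
  push Not at hcon
  -- the sum of the later items
  have h1 : ∑ z ∈ R, X z = ∑ z ∈ R.filter (fun z => X r ≤ X z), X z +
      ∑ z ∈ R.filter (fun z => ¬ X r ≤ X z), X z := (sum_filter_add_sum_filter_not _ _ _).symm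
  have h2 : ∑ z ∈ R.filter (fun z => ¬ X r ≤ X z), X z < X r - (s + e) := by linarith
  have h3 : ∑ z ∈ (univ \ V).filter (fun z => t z < X r), X z ≤
      ∑ z ∈ R.filter (fun z => ¬ X r ≤ X z), X z := by
    refine sum_le_sum_of_subset_of_nonneg ?_ fun z _ _ => D.h0 z
    intro z hz
    rw [mem_filter] at hz ⊢
    have h4 : X z < X r := (D.h1 z).trans_lt hz.2
    exact ⟨hr2 z hz.1 h4, not_le.2 h4⟩
  have h0 : 0 ≤ ∑ z ∈ R.filter (fun z => ¬ X r ≤ X z), X z := sum_nonneg fun z _ => D.h0 z
  have y0 : x 0 < X r := by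
    have := P.x0s
    linarith
  have key : ∀ j, j ≤ m → x j < X r → l j + s < X r := by
    intro j hj hx
    have h4 : ∑ z ∈ (univ \ V).filter (fun z => t z ≤ x j), X z ≤
        ∑ z ∈ (univ \ V).filter (fun z => t z < X r), X z := by
      refine sum_le_sum_of_subset_of_nonneg ?_ fun z _ _ => D.h0 z
      intro z hz
      rw [mem_filter] at hz ⊢
      exact ⟨hz.1, lt_of_le_of_lt hz.2 hx⟩
    have := hl j hj
    linarith
  have hx : ∀ j, j ≤ m → x j < X r := by
    intro j
    induction j with
    | zero => exact fun _ => y0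
    | succ j ih =>
      intro hj
      have h4 := key j (by omega) (ih (by omega))
      have := P.R j (by omega)
      linarith
  have hxm := hx m le_rfl
  have hlm := key m le_rfl hxm
  have hr0 : 0 ≤ X r := D.h0 r
  have hcl := card_large D (X r) (l m + s) hr0 hxm hlm.le P.Rm
  -- large items
  have hB := hcl (insert r (R.filter (fun z => X r ≤ X z))) (by
    intro z hz
    rcases mem_insert.1 hz with h | h
    · rw [h]
    · exact (mem_filter.1 h).2)
  rw [card_insert_of_notMem (fun h => hrR (mem_filter.1 h).1)] at hB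
  have hle : ∀ z, X z ≤ 0.665 := fun z => (D.h1 z).trans (D.h2 z)
  have hB2 : 2 ≤ (R.filter (fun z => X r ≤ X z)).card := by
    by_contra hlt
    push Not at hlt
    have h5 : ∑ z ∈ R.filter (fun z => X r ≤ X z), X z ≤ 0.665 := by
      have h6 : ∑ z ∈ R.filter (fun z => X r ≤ X z), X z ≤
          ∑ _z ∈ R.filter (fun z => X r ≤ X z), (0.665 : ℝ) := sum_le_sum fun z _ => hle z
      rw [sum_const, nsmul_eq_mul] at h6
      have h7 : ((R.filter (fun z => X r ≤ X z)).card : ℝ) ≤ 1 := by
        exact_mod_cast (by omega : (R.filter (fun z => X r ≤ X z)).card ≤ 1)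
      linarith
    have := hle r
    linarith
  have hB3 : (R.filter (fun z => X r ≤ X z)).card = 2 := by omega
  obtain ⟨a, b, hab, hRab⟩ := card_eq_two.1 hB3
  have haR : a ∈ R.filter (fun z => X r ≤ X z) := by rw [hRab]; simp
  have hbR : b ∈ R.filter (fun z => X r ≤ X z) := by rw [hRab]; simp
  have hra : r ≠ a := fun h => hrR (h ▸ (mem_filter.1 haR).1)
  have hrb : r ≠ b := fun h => hrR (h ▸ (mem_filter.1 hbR).1)
  have htr := triple D r a b hra hrb hab hxm (mem_filter.1 haR).2 (mem_filter.1 hbR).2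
  have hsum : ∑ z ∈ R.filter (fun z => X r ≤ X z), X z = X a + X b := by
    rw [hRab, sum_pair hab]
  -- everything else is accepted
  have hall : univ \ V ⊆ insert r R := by
    intro z hz
    rw [mem_insert]
    by_contra hcon2
    push Not at hcon2
    have hz1 : X r ≤ X z := by
      by_contra h
      exact hcon2.2 (hr2 z hz (not_le.1 h))
    have h8 := hcl (insert z (insert r {a, b})) (by
      intro w hw
      simp only [mem_insert, mem_singleton] at hw
      rcases hw with h | h | h | h
      · rw [h]; exact hz1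
      · rw [h]
      · rw [h]; exact (mem_filter.1 haR).2
      · rw [h]; exact (mem_filter.1 hbR).2)
    have hza : z ≠ a := fun h => hcon2.2 (h ▸ (mem_filter.1 haR).1)
    have hzb : z ≠ b := fun h => hcon2.2 (h ▸ (mem_filter.1 hbR).1)
    rw [card_insert_of_notMem (by simp [hcon2.1, hza, hzb]),
      card_insert_of_notMem (by simp [hra, hrb]), card_pair hab] at h8
    omega
  have h9 : ∑ z, X z - ∑ z ∈ V, X z ≤ X r + ∑ z ∈ R, X z := by
    have h10 : ∑ z ∈ univ \ V, X z ≤ ∑ z ∈ insert r R, X z :=
      sum_le_sum_of_subset_of_nonneg hall fun z _ _ => D.h0 z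
    rw [sum_insert hrR] at h10
    have h11 := sum_sdiff (f := X) (subset_univ V)
    linarith
  have hPB := P.B
  have hPV := P.hV0
  linarith

end Pool.Agent.H529.C.R
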