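import Pool.Agent.H529.C.Defs

/-!
# The grouping lemma with parameters (helper529): the set `V` (task CV, helper115)
-/

set_option autoImplicit false
set_option linter.unusedSectionVars false

namespace Pool.Agent.H529.C.V

open Finset Pool.Agent.Y826.Z Pool.Agent.Y823.Z Pool.Agent.H529.C

section

variable {ι : Type} [Fintype ι] [DecidableEq ι]

theorem sum_out {t X : ι → ℝ} {y : ℝ} {V : Finset ι} (hV : V ⊆ univ.filter (fun z => t z ≤ y)) :
    ∑ z ∈ (univ \ V).filter (fun z => t z ≤ y), X z =
      ∑ z ∈ univ.filter (fun z => t z ≤ y), X z - ∑ z ∈ V, X z := by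
  have h1 : (univ \ V).filter (fun z => t z ≤ y) = univ.filter (fun z => t z ≤ y) \ V := by
    ext z
    simp only [mem_filter, mem_sdiff, mem_univ, true_and]
    exact and_comm
  rw [h1, eq_sub_iff_add_eq]
  exact sum_sdiff hV

theorem filter_le {X : ι → ℝ} (h0 : ∀ z, 0 ≤ X z) (V : Finset ι) (p : ι → Prop) [DecidablePred p] :
    ∑ z ∈ V.filter p, X z ≤ ∑ z ∈ V, X z :=
  sum_le_sum_of_subset_of_nonneg (filter_subset _ _) fun z _ _ => h0 z

/-- The stages of the greedy algorithm. -/
theorem stages {x G l : ℕ → ℝ} {k m : ℕ} {s e : ℝ} {t X : ι → ℝ} (h0 : ∀ z, 0 ≤ X z)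
    (h1 : ∀ z, X z ≤ t z) (hmono : ∀ i j, i ≤ j → j ≤ m → x i ≤ x j) (hkm : k ≤ m) (he : 0 ≤ e)
    (hxk : k = 0 ∨ s ≤ 2 * x 0)
    (l1 : ∀ j, j < k → l j + x (j + 1) ≤ G j) (l2 : ∀ j, j < k → l j ≤ l (j + 1))
    (hR : ∀ j, j < m → x (j + 1) ≤ l j + s)
    (hA : ∀ j, j ≤ m → G j - e ≤ ∑ z ∈ univ.filter (fun z => t z ≤ x j), X z) :
    ∀ j, j ≤ k → ∀ r, 0 ≤ r → l j - e ≤ ∑ z ∈ univ.filter (fun z => t z ≤ x j), X z - r →
      ∃ V ⊆ univ.filter (fun z => t z ≤ x j), ∑ z ∈ V, X z ≤ r ∧
        (∀ i, i ≤ j → l i - e ≤ ∑ z ∈ (univ \ V).filter (fun z => t z ≤ x i), X z) ∧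
        (V = univ.filter (fun z => t z ≤ x j) ∨ 2 * (r - ∑ z ∈ V, X z) ≤ 2 * x 0 + e) := by
  intro j
  induction j with
  | zero =>
    intro _ r hr hl
    obtain ⟨V, hVS, hVc, hV⟩ := greedy X r hr (univ.filter (fun z => t z ≤ x 0)) fun z _ => h0 z
    refine ⟨V, hVS, hVc, ?_, ?_⟩
    · intro i hi
      have hi0 : i = 0 := Nat.le_zero.1 hi
      subst hi0
      rw [sum_out hVS]
      linarith
    · rcases hV with hV | ⟨z, hzS, _, hz, _⟩
      · exact Or.inl hV
      · right
        have h2 : X z ≤ x 0 := (h1 z).trans (mem_filter.1 hzS).2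
        have h3 := filter_le h0 V (fun y => X z ≤ X y)
        linarith
  | succ j ih =>
    intro hjk r hr hl
    have hjk' : j < k := hjk
    have hjm : j < m := by omega
    set S : Finset ι := univ.filter (fun z => x j < t z ∧ t z ≤ x (j + 1)) with hS
    have hxx : x j ≤ x (j + 1) := hmono j (j + 1) (Nat.le_succ j) hjm
    have hdis : Disjoint S (univ.filter (fun z => t z ≤ x j)) := by
      rw [disjoint_left]
      intro z hz1 hz2
      have k1 := (mem_filter.1 hz1).2.1
      have k2 := (mem_filter.1 hz2).2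
      linarith
    have huni : univ.filter (fun z => t z ≤ x (j + 1)) = S ∪ univ.filter (fun z => t z ≤ x j) := by
      ext z
      simp only [hS, mem_filter, mem_union, mem_univ, true_and]
      constructor
      · intro h
        rcases le_or_gt (t z) (x j) with k1 | k1
        · exact Or.inr k1
        · exact Or.inl ⟨k1, h⟩
      · rintro (h | h)
        · exact h.2
        · linarith
    have hsum : ∑ z ∈ univ.filter (fun z => t z ≤ x (j + 1)), X z =
        ∑ z ∈ S, X z + ∑ z ∈ univ.filter (fun z => t z ≤ x j), X z := by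
      rw [huni, sum_union hdis]
    obtain ⟨V1, hV1S, hV1c, hV1⟩ := greedy X r hr S fun z _ => h0 z
    have hAj := hA j hjm.le
    have hA0 : 0 ≤ ∑ z ∈ univ.filter (fun z => t z ≤ x j), X z := sum_nonneg fun z _ => h0 z
    -- the condition for the next stage
    have hnext : l j - e ≤ ∑ z ∈ univ.filter (fun z => t z ≤ x j), X z - (r - ∑ z ∈ V1, X z) ∧
        (V1 = S ∨ r - ∑ z ∈ V1, X z < x (j + 1)) := by
      rcases hV1 with hV1 | ⟨z, hzS, _, hz, _⟩
      · refine ⟨?_, Or.inl hV1⟩
        rw [hV1]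
        have := l2 j hjk'
        linarith
      · have h2 : X z ≤ x (j + 1) := (h1 z).trans (mem_filter.1 hzS).2.2
        have h3 := filter_le h0 V1 (fun y => X z ≤ X y)
        have h4 := l1 j hjk'
        exact ⟨by linarith, Or.inr (by linarith)⟩
    obtain ⟨V2, hV2S, hV2c, hV2l, hV2⟩ := ih hjk'.le (r - ∑ z ∈ V1, X z) (by linarith) hnext.1
    have hd2 : Disjoint V1 V2 := disjoint_of_subset_left hV1S (disjoint_of_subset_right hV2S hdis)
    have hs2 : ∑ z ∈ V1 ∪ V2, X z = ∑ z ∈ V1, X z + ∑ z ∈ V2, X z := sum_union hd2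
    have hsub : V1 ∪ V2 ⊆ univ.filter (fun z => t z ≤ x (j + 1)) := by
      rw [huni]
      exact union_subset_union hV1S hV2S
    refine ⟨V1 ∪ V2, hsub, by rw [hs2]; linarith, ?_, ?_⟩
    · intro i hi
      rcases Nat.lt_or_ge j i with hij | hij
      · have hi1 : i = j + 1 := by omega
        subst hi1
        rw [sum_out hsub, hs2]
        linarith
      · have h2 : (univ \ (V1 ∪ V2)).filter (fun z => t z ≤ x i) =
            (univ \ V2).filter (fun z => t z ≤ x i) := by
          ext z
          simp only [mem_filter, mem_sdiff, mem_union, mem_univ, true_and, not_or]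
          constructor
          · rintro ⟨⟨_, k2⟩, k3⟩
            exact ⟨k2, k3⟩
          · rintro ⟨k2, k3⟩
            refine ⟨⟨fun hz => ?_, k2⟩, k3⟩
            have k4 := (mem_filter.1 (hV1S hz)).2.1
            have k5 := hmono i j hij hjm.le
            linarith
        rw [h2]
        exact hV2l i hij
    · rw [hs2]
      rcases hV2 with hV2 | hV2
      · rcases hnext.2 with h3 | h3
        · left
          rw [h3, hV2, huni]
        · right
          rw [hV2]
          have h4 := l1 j hjk'
          have h5 := hR j hjm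
          have h6 : s ≤ 2 * x 0 := by
            rcases hxk with h7 | h7
            · omega
            · exact h7
          linarith
      · right
        linarith

end

/-- **Task CV.** -/
theorem cv : S_CV := by
  intro ι _ _ τ s w V0 Bp x G l k a m t X cl n P D
  obtain ⟨e, he⟩ : ∃ e : ℝ, e = 2 + τ - ∑ z, X z := ⟨_, rfl⟩
  have hle : ∑ z, X z ≤ 2 + τ := (sum_le_sum fun z _ => D.h1 z).trans D.hT
  have he0 : 0 ≤ e := by linarith
  have he1 : e ≤ τ + 0.000001 := by
    have := D.hX
    linarith
  have hmono : ∀ i j, i ≤ j → j ≤ m → x i ≤ x j := by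
    intro i j hij
    induction j, hij using Nat.le_induction with
    | base => exact fun _ => le_rfl
    | succ j hij ih =>
      intro hj
      exact (ih (by omega)).trans (P.mono j (by omega)).le
  have hA : ∀ j, j ≤ m → G j - e ≤ ∑ z ∈ univ.filter (fun z => t z ≤ x j), X z := by
    intro j hj
    have h1 : ∑ z ∈ univ.filter (fun z => t z ≤ x j), (t z - X z) ≤ ∑ z, (t z - X z) := by
      refine sum_le_sum_of_subset_of_nonneg (filter_subset _ _) fun z _ _ => ?_
      have := D.h1 z
      linarith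
    rw [sum_sub_distrib, sum_sub_distrib] at h1
    have h2 := D.hT
    have h3 := D.sm j hj
    linarith
  have hV0 := P.hV0
  have ht0 := P.t0
  have hs0 := P.s0
  have hx0 := P.x0
  obtain ⟨V, hVS, hVc, hVl, hV⟩ := stages (e := e) D.h0 D.h1 hmono P.km he0 P.xk P.l1 P.l2
    P.R hA k le_rfl V0 (by linarith) (by
      have h1 := hA k P.km
      have h2 := P.l3 k le_rfl P.km
      linarith)
  rw [← he]
  refine ⟨V, ?_, hVc, ?_⟩
  · rcases hV with hV | hV
    · have h1 := hA k P.km
      rw [← hV] at h1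
      have h2 := P.Gk
      linarith
    · linarith
  · intro j hj
    rcases le_or_gt j k with hjk | hjk
    · exact hVl j hjk
    · have hsub : V ⊆ univ.filter (fun z => t z ≤ x j) := by
        intro z hz
        have h1 := (mem_filter.1 (hVS hz)).2
        rw [mem_filter]
        exact ⟨mem_univ z, h1.trans (hmono k j hjk.le hj)⟩
      rw [sum_out hsub]
      have h1 := hA j hj
      have h2 := P.l3 j hjk.le hj
      linarith

end Pool.Agent.H529.C.V
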