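import Pool.Agent.H529.C.CV
import Pool.Agent.H529.C.CR
import Pool.Agent.H529.C.CA
import Pool.Agent.H529.C.CM
import Pool.Agent.H529.C.CC

/-! The grouping lemma with parameters, assembled. -/

set_option autoImplicit false

namespace Pool.Agent.H529.C

open Pool.Agent.Y826.Z Pool.Agent.H95R2.BG

/-- two good cells can be evaluated up to the total radius `2 + τ` -/
theorem comb {τ s w V0 Bp : ℝ} {x G l : ℕ → ℝ} {k a m : ℕ} (P : ParG τ s w V0 Bp x G l k a m) (K0 N1 : ℕ)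
    (hN : 0 < N1) (c c' : Fin K0 → ℕ) (h : GdG Bp x G m N1 c) (h' : GdG Bp x G m N1 c')
    (hr : ((rad c + rad c' : ℕ) : ℝ) / N1 ≤ 2 + τ) : Ev N1 c c' :=
  cc V.cv R.cr A.ca M.cm P K0 N1 hN c c' h h' hr

end Pool.Agent.H529.C
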